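import Pool.Agent.Run7.h204.TrgMain

open MeasureTheory Run7.h204.Trg

namespace Pool.Agent.Results.MP_90534d_pr.TropGaussNo

/-- Q1 answered in the negative, for `K = ℚ_p` (every prime `p`) and every dimension
`d ≥ p + 2` (for instance `K = ℚ_2` and `d = 4`): the tropical polynomial with the integer
supermodular coefficients `c_I = max(0, |I| - 2)` is not the tail function `φ_L` of any lattice
`L` of `K^d`. -/
theorem result (p : ℕ) [Fact p.Prime] (d : ℕ) (hd : p + 2 ≤ d)
    [MeasurableSpace (Fin d → ℚ_[p])] [BorelSpace (Fin d → ℚ_[p])] :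
    ¬ Q1For p d ∧
    Supermodular (fun I : Finset (Fin d) => max 0 ((I.card : ℤ) - 2)) ∧
    ∀ A : GL (Fin d) ℚ_[p], ∃ v : Fin d → ℤ,
      tail p (lattice p A) v
        ≠ tropPoly (fun I : Finset (Fin d) => max 0 ((I.card : ℤ) - 2)) (fun i => (v i : ℝ)) := by
  have h3 : ∀ A : GL (Fin d) ℚ_[p], ∃ v : Fin d → ℤ,
      tail p (lattice p A) v
        ≠ tropPoly (fun I : Finset (Fin d) => max 0 ((I.card : ℤ) - 2)) (fun i => (v i : ℝ)) := by
    intro A
    by_contra hcon
    push Not at hcon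
    exact no_tail hd A hcon
  refine ⟨fun hQ => ?_, supermodular_cU, h3⟩
  obtain ⟨A, hA⟩ := (hQ (fun v => tropPoly (fun I : Finset (Fin d) => max 0 ((I.card : ℤ) - 2))
    (fun i => (v i : ℝ)))).mpr ⟨_, supermodular_cU, fun v => rfl⟩
  obtain ⟨v, hv⟩ := h3 A
  exact hv (hA v).symm

end Pool.Agent.Results.MP_90534d_pr.TropGaussNo
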